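import Pool.Agent.Lib_helper21.RB.Main2
import Pool.Agent.Lib_helper21.AV.W.RK
import Pool.Agent.Lib_helper21.AV.W.AG
import Pool.Agent.Lib_helper21.AV.GB

/-!
# MP_7dc427_nt: representations as a difference of two fourth powers, for most squarefree parts

Uniform bounds for the number of solutions of `x ^ 4 - y ^ 4 = r` when the squarefree part `D` of
`r` is outside of a set of small density, and on average over `D`.
-/

set_option autoImplicit false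

namespace Pool.Agent.Results.MP_7dc427_nt.AverageBound

open Pool.Agent.RB Pool.Agent.AV

/-- The pairs of positive integers with `x ^ 4 - y ^ 4 = r`. -/
def sol (r : ℕ) : Set (ℕ × ℕ) := {p | 0 < p.1 ∧ 0 < p.2 ∧ ((p.1 : ℤ) ^ 4 - (p.2 : ℤ) ^ 4 = r)}

/-- The pairs of coprime positive integers with `x ^ 4 - y ^ 4 = r`. -/
def prim (r : ℕ) : Set (ℕ × ℕ) := {p | p ∈ sol r ∧ Nat.Coprime p.1 p.2}

/-- Part 1: for squarefree `D` the number of coprime solutions of `x ^ 4 - y ^ 4 = D * w ^ 2` is at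
most `f D` for every `w`, where `f D ≤ C * 3 ^ ω(D)` and `f ^ (4 / 3)` has bounded mean value.

Part 2: for every `ε > 0` there is a set `S` with at most `ε * X` elements up to `X`, for all `X`,
such that for `D ∉ S` there are bounds independent of `r`, if the squarefree part of `r` is `D`.
Every positive integer is `r = k * F ^ 4`, `k = D * E ^ 2` with `D`, `E` squarefree; `k` is its
fourth-power-free part. The number of the coprime solutions is at most `C`; for every `δ > 0` the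
number of the solutions with `gcd ^ 4 ≤ r ^ (1 - δ)` or `r / gcd ^ 4 ≤ k ^ (1 / δ)` is at most
`C`, and the number of all solutions is at most `C` if `k ≥ r ^ δ`, with `C` depending on `ε` and
`δ` only. -/
theorem result :
    (∃ (C : ℝ) (f : ℕ → ℝ), (∀ D, 0 ≤ f D) ∧
      (∀ D w : ℕ, Squarefree D → 0 < w → (prim (D * w ^ 2)).Finite ∧
        ((prim (D * w ^ 2)).ncard : ℝ) ≤ f D) ∧
      (∀ D : ℕ, Squarefree D → f D ≤ C * 3 ^ D.primeFactors.card) ∧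
      ∀ X : ℕ, ∑ D ∈ (Finset.Icc 1 X).filter Squarefree, f D ^ (4 / 3 : ℝ) ≤ C * X) ∧
    (∀ ε : ℝ, 0 < ε → ∃ S : Set ℕ, (∀ X : ℕ, ((S ∩ Set.Icc 1 X).ncard : ℝ) ≤ ε * X) ∧
      (∃ C : ℝ, ∀ D w : ℕ, Squarefree D → D ∉ S → 0 < w →
        ((prim (D * w ^ 2)).ncard : ℝ) ≤ C) ∧
      ∀ δ : ℝ, 0 < δ → δ ≤ 1 → ∃ C : ℝ, ∀ D E F k r : ℕ, Squarefree D → D ∉ S →
        Squarefree E → 0 < F → k = D * E ^ 2 → r = k * F ^ 4 → (sol r).Finite ∧
        (({p | p ∈ sol r ∧ (((Nat.gcd p.1 p.2 : ℕ) : ℝ) ^ 4 ≤ (r : ℝ) ^ (1 - δ) ∨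
          (r : ℝ) / ((Nat.gcd p.1 p.2 : ℕ) : ℝ) ^ 4 ≤ (k : ℝ) ^ (1 / δ))} :
            Set (ℕ × ℕ)).ncard : ℝ) ≤ C ∧
        ((r : ℝ) ^ δ ≤ k → ((sol r).ncard : ℝ) ≤ C)) := by
  have hsol : ∀ (r : ℕ) (p : ℕ × ℕ), p ∈ sol r → 0 < p.1 ∧ 0 < p.2 ∧ p.1 ^ 4 = p.2 ^ 4 + r := by
    rintro r p ⟨h1, h2, h3⟩
    refine ⟨h1, h2, ?_⟩
    have : (p.1 : ℤ) ^ 4 = (p.2 : ℤ) ^ 4 + r := by linarith
    exact_mod_cast this
  have hfin : ∀ r : ℕ, 0 < r → (sol r).Finite := fun r hr =>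
    (finite_of_subset hr (fun p hp => (hsol r p hp).2.2)).1
  have hprim : ∀ r : ℕ, 0 < r → (prim r).Finite := fun r hr =>
    (hfin r hr).subset fun p hp => hp.1
  have hps : ∀ r : ℕ, prim r ⊆ primSol r := fun r p hp =>
    ⟨(hsol r p hp.1).1, (hsol r p hp.1).2.1, hp.2, (hsol r p hp.1).2.2⟩
  have hpf : ∀ r : ℕ, 0 < r → (primSol r).Finite := fun r hr =>
    (finite_of_subset hr (fun p hp => hp.2.2.2)).1
  have hG0 : ∀ D : ℕ, 0 ≤ GG D := fun D => by unfold GG; positivity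
  obtain ⟨C₁, hC₁0, hC₁⟩ := avg
  obtain ⟨C₀, hC₀⟩ := coprime_bound'
  -- the coprime solutions
  have hcop : ∀ D w : ℕ, Squarefree D → 0 < w →
      ((prim (D * w ^ 2)).ncard : ℝ) ≤ |C₀| * GG D ^ (3 / 4 : ℝ) := by
    intro D w hD hw
    have hD0 : 0 < D := Nat.pos_of_ne_zero hD.ne_zero
    have hr0 : 0 < D * w ^ 2 := by positivity
    obtain ⟨n, P, hP, hn⟩ := hC₀ D w hD0 hw
    have h2 := rank_bound hD n P hP
    have h1 : ((prim (D * w ^ 2)).ncard : ℝ) ≤ ((primSol (D * w ^ 2)).ncard : ℝ) := by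
      exact_mod_cast Set.ncard_le_ncard (hps _) (hpf _ hr0)
    have h3 : ((5 / 3 : ℝ)) ^ n ≤ GG D ^ (3 / 4 : ℝ) := by
      have h4 : ((5 / 3 : ℝ)) ^ n = (((5 / 3 : ℝ) ^ n) ^ (4 / 3 : ℝ)) ^ (3 / 4 : ℝ) := by
        rw [← Real.rpow_mul (by positivity)]
        norm_num
      rw [h4]
      refine Real.rpow_le_rpow (by positivity) ?_ (by norm_num)
      refine le_trans ?_ h2
      have h5 : ((5 / 3 : ℝ) ^ n) ^ (4 / 3 : ℝ) = ((5 / 3 : ℝ) ^ (4 / 3 : ℝ)) ^ n := by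
        rw [← Real.rpow_natCast, ← Real.rpow_mul (by norm_num), mul_comm,
          Real.rpow_mul (by norm_num), Real.rpow_natCast]
      rw [h5]
      refine pow_le_pow_left₀ (by positivity) ?_ n
      have h6 : ((5 / 3 : ℝ) ^ (4 / 3 : ℝ)) ^ 3 ≤ 2 ^ 3 := by
        rw [← Real.rpow_natCast, ← Real.rpow_mul (by norm_num)]
        have : (4 / 3 : ℝ) * ((3 : ℕ) : ℝ) = ((4 : ℕ) : ℝ) := by norm_num
        rw [this, Real.rpow_natCast]
        norm_num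
      exact le_of_pow_le_pow_left₀ (by norm_num) (by norm_num) h6
    calc ((prim (D * w ^ 2)).ncard : ℝ) ≤ C₀ * (5 / 3) ^ n := h1.trans hn
      _ ≤ |C₀| * (5 / 3) ^ n := by gcongr; exact le_abs_self _
      _ ≤ |C₀| * GG D ^ (3 / 4 : ℝ) := by gcongr
  have hsum : ∀ X : ℕ, ∑ D ∈ (Finset.Icc 1 X).filter Squarefree, GG D ≤ C₁ * X := by
    intro X
    rcases Nat.eq_zero_or_pos X with h | h
    · subst h; simp
    · exact hC₁ X h
  refine ⟨⟨|C₀| ^ (4 / 3 : ℝ) * C₁ + |C₀| * 68, fun D => |C₀| * GG D ^ (3 / 4 : ℝ), fun D => by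
    have := hG0 D
    positivity, fun D w hD hw => ⟨hprim _ ?_, hcop D w hD hw⟩, fun D hD => ?_, fun X => ?_⟩,
    fun ε hε => ?_⟩
  · have := Nat.pos_of_ne_zero hD.ne_zero
    positivity
  · have h1 : GG D ^ (3 / 4 : ℝ) ≤ 68 * 3 ^ D.primeFactors.card := by
      have h2 : GG D ^ (3 / 4 : ℝ) ≤ (68 * 4 ^ D.primeFactors.card) ^ (3 / 4 : ℝ) :=
        Real.rpow_le_rpow (hG0 D) (GB_bound hD) (by norm_num)
      have h3 : (68 * (4 : ℝ) ^ D.primeFactors.card) ^ (3 / 4 : ℝ) =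
          68 ^ (3 / 4 : ℝ) * ((4 : ℝ) ^ (3 / 4 : ℝ)) ^ D.primeFactors.card := by
        rw [Real.mul_rpow (by norm_num) (by positivity), ← Real.rpow_natCast, ← Real.rpow_natCast,
          ← Real.rpow_mul (by norm_num), ← Real.rpow_mul (by norm_num), mul_comm (3 / 4 : ℝ)]
      have h4 : (68 : ℝ) ^ (3 / 4 : ℝ) ≤ 68 := by
        calc (68 : ℝ) ^ (3 / 4 : ℝ) ≤ (68 : ℝ) ^ (1 : ℝ) :=
              Real.rpow_le_rpow_of_exponent_le (by norm_num) (by norm_num)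
          _ = 68 := Real.rpow_one _
      have h5 : (4 : ℝ) ^ (3 / 4 : ℝ) ≤ 3 := by
        have h6 : ((4 : ℝ) ^ (3 / 4 : ℝ)) ^ 4 ≤ 3 ^ 4 := by
          rw [← Real.rpow_natCast, ← Real.rpow_mul (by norm_num)]
          have : (3 / 4 : ℝ) * ((4 : ℕ) : ℝ) = ((3 : ℕ) : ℝ) := by norm_num
          rw [this, Real.rpow_natCast]
          norm_num
        exact le_of_pow_le_pow_left₀ (by norm_num) (by norm_num) h6
      rw [h3] at h2
      refine h2.trans ?_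
      gcongr
    have h7 : 0 ≤ |C₀| ^ (4 / 3 : ℝ) * C₁ := by positivity
    calc |C₀| * GG D ^ (3 / 4 : ℝ) ≤ |C₀| * (68 * 3 ^ D.primeFactors.card) := by gcongr
      _ ≤ (|C₀| ^ (4 / 3 : ℝ) * C₁ + |C₀| * 68) * 3 ^ D.primeFactors.card := by
          have : (0 : ℝ) ≤ 3 ^ D.primeFactors.card := by positivity
          nlinarith
  · have h1 : ∀ D : ℕ, (|C₀| * GG D ^ (3 / 4 : ℝ)) ^ (4 / 3 : ℝ) =
        |C₀| ^ (4 / 3 : ℝ) * GG D := by
      intro D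
      rw [Real.mul_rpow (abs_nonneg _) (Real.rpow_nonneg (hG0 D) _), ← Real.rpow_mul (hG0 D)]
      norm_num
    rw [Finset.sum_congr rfl fun D _ => h1 D, ← Finset.mul_sum]
    calc |C₀| ^ (4 / 3 : ℝ) * ∑ D ∈ (Finset.Icc 1 X).filter Squarefree, GG D
        ≤ |C₀| ^ (4 / 3 : ℝ) * (C₁ * X) := mul_le_mul_of_nonneg_left (hsum X) (by positivity)
      _ ≤ (|C₀| ^ (4 / 3 : ℝ) * C₁ + |C₀| * 68) * X := by
          have h2 : 0 ≤ |C₀| * 68 * (X : ℝ) := by positivity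
          linarith
  -- part 2
  set K : ℝ := (C₁ + 1) / ε with hK
  have hK0 : 0 < K := by positivity
  set S : Set ℕ := {D | Squarefree D ∧ K < GG D} with hS
  have hrank : ∀ D : ℕ, Squarefree D → D ∉ S → ∀ (n : ℕ) (P : Fin n → Pt (D : ℚ)),
      LinearIndependent ℤ P → n ≤ Nat.log 2 ⌊K⌋₊ := by
    intro D hD hDS n P hP
    have h1 : GG D ≤ K := by
      by_contra h
      exact hDS ⟨hD, not_le.1 h⟩
    have h2 : (2 : ℝ) ^ n ≤ K := (rank_bound hD n P hP).trans h1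
    have h3 : 2 ^ n ≤ ⌊K⌋₊ := Nat.le_floor (by exact_mod_cast h2)
    have h4 : ⌊K⌋₊ ≠ 0 := by
      have : 0 < 2 ^ n := by positivity
      omega
    exact (Nat.le_log_iff_pow_le (by norm_num) h4).2 h3
  refine ⟨S, fun X => ?_, ⟨|C₀| * K ^ (3 / 4 : ℝ), fun D w hD hDS hw => ?_⟩, fun δ hδ hδ1 => ?_⟩
  · classical
    have h1 : S ∩ Set.Icc 1 X = ((((Finset.Icc 1 X).filter Squarefree).filter
        (fun D => K < GG D) : Finset ℕ) : Set ℕ) := by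
      ext D
      simp only [hS, Set.mem_inter_iff, Set.mem_ofPred_eq, Set.mem_Icc, Finset.coe_filter,
        Finset.mem_filter, Finset.mem_Icc]
      tauto
    rw [h1, Set.ncard_coe_finset]
    set T := ((Finset.Icc 1 X).filter Squarefree).filter (fun D => K < GG D) with hT
    have h2 : (T.card : ℝ) * K ≤ C₁ * X := by
      calc (T.card : ℝ) * K = ∑ D ∈ T, K := by simp
        _ ≤ ∑ D ∈ T, GG D := Finset.sum_le_sum fun D hD => (Finset.mem_filter.1 hD).2.le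
        _ ≤ ∑ D ∈ (Finset.Icc 1 X).filter Squarefree, GG D :=
            Finset.sum_le_sum_of_subset_of_nonneg (Finset.filter_subset _ _)
              (fun D _ _ => hG0 D)
        _ ≤ C₁ * X := hsum X
    have h3 : (T.card : ℝ) * (C₁ + 1) ≤ ε * X * (C₁ + 1) := by
      have h4 : (T.card : ℝ) * (C₁ + 1) = ((T.card : ℝ) * K) * ε := by
        rw [hK]
        field_simp
      rw [h4]
      have h5 : C₁ * (X : ℝ) ≤ X * (C₁ + 1) := by
        have : (0 : ℝ) ≤ X := Nat.cast_nonneg _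
        nlinarith
      calc ((T.card : ℝ) * K) * ε ≤ (X * (C₁ + 1)) * ε :=
            mul_le_mul_of_nonneg_right (h2.trans h5) hε.le
        _ = _ := by ring
    exact le_of_mul_le_mul_right h3 (by positivity)
  · refine (hcop D w hD hw).trans ?_
    have h1 : GG D ≤ K := by
      by_contra h
      exact hDS ⟨hD, not_le.1 h⟩
    exact mul_le_mul_of_nonneg_left (Real.rpow_le_rpow (hG0 D) h1 (by norm_num)) (abs_nonneg _)
  obtain ⟨C₂, h₁⟩ := big_bound δ hδ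
  obtain ⟨C₃, h₂⟩ := small_bound (1 / δ) (by rw [le_div_iff₀ hδ]; linarith)
  set R : ℕ := Nat.log 2 ⌊K⌋₊ with hR
  have hpow : ∀ (C : ℝ) (n : ℕ), n ≤ R → C ^ (n + 1) ≤ (|C| + 1) ^ (R + 1) := by
    intro C n hn
    calc C ^ (n + 1) ≤ |C ^ (n + 1)| := le_abs_self _
      _ = |C| ^ (n + 1) := abs_pow _ _
      _ ≤ (|C| + 1) ^ (n + 1) := pow_le_pow_left₀ (abs_nonneg _) (by linarith) _
      _ ≤ _ := pow_le_pow_right₀ (by linarith [abs_nonneg C]) (by omega)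
  refine ⟨(|C₂| + 1) ^ (R + 1) + (|C₃| + 1) ^ (R + 1), fun D E F k r hD hDS hE hF hk hr => ?_⟩
  have hD0 : 0 < D := Nat.pos_of_ne_zero hD.ne_zero
  have hE0 : 0 < E := Nat.pos_of_ne_zero hE.ne_zero
  have hrw : r = D * (E * F ^ 2) ^ 2 := by rw [hr, hk]; ring
  have hr0 : 0 < r := by rw [hrw]; positivity
  have key : (({p | p ∈ sol r ∧ (((Nat.gcd p.1 p.2 : ℕ) : ℝ) ^ 4 ≤ (r : ℝ) ^ (1 - δ) ∨
      (r : ℝ) / ((Nat.gcd p.1 p.2 : ℕ) : ℝ) ^ 4 ≤ (k : ℝ) ^ (1 / δ))} :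
      Set (ℕ × ℕ)).ncard : ℝ) ≤ (|C₂| + 1) ^ (R + 1) + (|C₃| + 1) ^ (R + 1) := by
    obtain ⟨n₁, P₁, i₁, b₁⟩ := h₁ D (E * F ^ 2) hD (by positivity)
    obtain ⟨n₂, P₂, i₂, b₂⟩ := h₂ D E F hD hE hF
    rw [← hrw] at b₁
    rw [← hk, ← hr] at b₂
    have f1 : (bigSol δ r).Finite := (finite_of_subset hr0 (fun p hp => hp.2.2.1)).1
    have f2 : (smallSol (1 / δ) k r).Finite := (finite_of_subset hr0 (fun p hp => hp.2.2.1)).1
    have hsub : {p | p ∈ sol r ∧ (((Nat.gcd p.1 p.2 : ℕ) : ℝ) ^ 4 ≤ (r : ℝ) ^ (1 - δ) ∨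
        (r : ℝ) / ((Nat.gcd p.1 p.2 : ℕ) : ℝ) ^ 4 ≤ (k : ℝ) ^ (1 / δ))} ⊆
        bigSol δ r ∪ smallSol (1 / δ) k r := by
      rintro p ⟨hp, h | h⟩
      · obtain ⟨h1, h2, h3⟩ := hsol r p hp
        exact Or.inl ⟨h1, h2, h3, h⟩
      · obtain ⟨h1, h2, h3⟩ := hsol r p hp
        refine Or.inr ⟨h1, h2, h3, ?_⟩
        have hg : (0 : ℝ) < ((Nat.gcd p.1 p.2 : ℕ) : ℝ) ^ 4 := by
          have : 0 < Nat.gcd p.1 p.2 := Nat.gcd_pos_of_pos_left _ h1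
          positivity
        rwa [div_le_iff₀ hg] at h
    have hcard := (Set.ncard_le_ncard hsub (f1.union f2)).trans (Set.ncard_union_le _ _)
    calc _ ≤ (((bigSol δ r).ncard + (smallSol (1 / δ) k r).ncard : ℕ) : ℝ) := by
          exact_mod_cast hcard
      _ ≤ C₂ ^ (n₁ + 1) + C₃ ^ (n₂ + 1) := by push_cast; exact add_le_add b₁ b₂
      _ ≤ _ := add_le_add (hpow _ _ (hrank D hD hDS n₁ P₁ i₁)) (hpow _ _ (hrank D hD hDS n₂ P₂ i₂))
  refine ⟨hfin r hr0, key, fun hkr => ?_⟩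
  have hall : {p | p ∈ sol r ∧ (((Nat.gcd p.1 p.2 : ℕ) : ℝ) ^ 4 ≤ (r : ℝ) ^ (1 - δ) ∨
      (r : ℝ) / ((Nat.gcd p.1 p.2 : ℕ) : ℝ) ^ 4 ≤ (k : ℝ) ^ (1 / δ))} = sol r := by
    apply Set.Subset.antisymm (fun p hp => hp.1)
    intro p hp
    refine ⟨hp, Or.inr ?_⟩
    have hg : (1 : ℝ) ≤ ((Nat.gcd p.1 p.2 : ℕ) : ℝ) ^ 4 := by
      have : 0 < Nat.gcd p.1 p.2 := Nat.gcd_pos_of_pos_left _ hp.1
      apply one_le_pow₀
      exact_mod_cast this
    calc (r : ℝ) / ((Nat.gcd p.1 p.2 : ℕ) : ℝ) ^ 4 ≤ r := div_le_self (Nat.cast_nonneg _) hg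
      _ = ((r : ℝ) ^ δ) ^ (1 / δ) := by
          rw [← Real.rpow_mul (Nat.cast_nonneg _), mul_one_div_cancel hδ.ne', Real.rpow_one]
      _ ≤ (k : ℝ) ^ (1 / δ) :=
          Real.rpow_le_rpow (by positivity) hkr (by positivity)
  rwa [hall] at key

end Pool.Agent.Results.MP_7dc427_nt.AverageBound
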