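import Pool.Agent.Lib_helper21.FPB.Main

/-!
# MP_7dc427_nt: representations as a difference of two fourth powers

A bound for the number of solutions of `x ^ 4 - y ^ 4 = r` in terms of the number of the prime
divisors of `r` which are `1 mod 4`.
-/

set_option autoImplicit false

namespace Pool.Agent.Results.MP_7dc427_nt.CodeBound

open Pool.Agent.FP Pool.Agent.FPB

/-- There is a constant `C` such that for every positive integer `r`, with `ω₁ (r)` the number of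
prime divisors of `r` which are `1 mod 4`: the number of pairs of coprime positive integers `(x, y)`
with `x ^ 4 - y ^ 4 = r` is at most `C * 1.3764 ^ ω₁ (r)`, and the number of all pairs of positive
integers `(x, y)` with `x ^ 4 - y ^ 4 = r` is at most `C * D * 1.3764 ^ ω₁ (r)`, where `D` is the
number of positive integers `d` with `d ^ 4 ∣ r`. -/
theorem result : ∃ C : ℝ, 0 < C ∧ ∀ r : ℕ, 0 < r →
    {P : ℕ × ℕ | 0 < P.1 ∧ 0 < P.2 ∧ ((P.1 : ℤ) ^ 4 - (P.2 : ℤ) ^ 4 = r)}.Finite ∧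
    (({P : ℕ × ℕ | 0 < P.1 ∧ 0 < P.2 ∧ ((P.1 : ℤ) ^ 4 - (P.2 : ℤ) ^ 4 = r) ∧
      Nat.Coprime P.1 P.2}.ncard : ℝ) ≤
      C * (1.3764 : ℝ) ^ (r.primeFactors.filter (fun p => p % 4 = 1)).card) ∧
    (({P : ℕ × ℕ | 0 < P.1 ∧ 0 < P.2 ∧ ((P.1 : ℤ) ^ 4 - (P.2 : ℤ) ^ 4 = r)}.ncard : ℝ) ≤
      C * ((r.divisors.filter (fun d => d ^ 4 ∣ r)).card : ℝ) *
        (1.3764 : ℝ) ^ (r.primeFactors.filter (fun p => p % 4 = 1)).card) := by
  refine ⟨CC, CC_pos, fun r hr => ?_⟩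
  set A : Set (ℕ × ℕ) :=
    {P : ℕ × ℕ | 0 < P.1 ∧ 0 < P.2 ∧ ((P.1 : ℤ) ^ 4 - (P.2 : ℤ) ^ 4 = r)} with hA
  have hsol : ∀ P ∈ A, IsSol r P := by
    rintro P ⟨hx, hy, h⟩
    refine ⟨hx, hy, ?_⟩
    have : (P.1 : ℤ) ^ 4 = (P.2 : ℤ) ^ 4 + r := by linarith
    exact_mod_cast this
  have hfin : A.Finite := by
    refine Set.Finite.subset
      (Finset.finite_toSet (Finset.range (2 * r + 1) ×ˢ Finset.range (2 * r + 1))) fun P hP => ?_
    exact Finset.mem_coe.2 (sol_box hr (hsol P hP))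
  have hfin2 : {P : ℕ × ℕ | 0 < P.1 ∧ 0 < P.2 ∧ ((P.1 : ℤ) ^ 4 - (P.2 : ℤ) ^ 4 = r) ∧
      Nat.Coprime P.1 P.2}.Finite :=
    hfin.subset fun P hP => ⟨hP.1, hP.2.1, hP.2.2.1⟩
  refine ⟨hfin, ?_, ?_⟩
  · rw [Set.ncard_eq_toFinset_card _ hfin2]
    apply cop_all hr
    · intro P hP
      rw [Set.Finite.mem_toFinset] at hP
      exact hsol P ⟨hP.1, hP.2.1, hP.2.2.1⟩
    · intro P hP
      rw [Set.Finite.mem_toFinset] at hP
      exact hP.2.2.2
  · rw [Set.ncard_eq_toFinset_card _ hfin]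
    apply gen_all hr
    intro P hP
    rw [Set.Finite.mem_toFinset] at hP
    exact hsol P hP

end Pool.Agent.Results.MP_7dc427_nt.CodeBound
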